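import Pool.Agent.Helper45.SH.Crude5
import Pool.Agent.H54Sharp.Stmt

set_option autoImplicit false

namespace Pool.Agent.Helper45.SH

open Finset Filter Topology

/-- the part of the copula near `0` and near `1` -/
theorem crude (d : ℝ) (hd : 0 < d) : ∃ l : ℝ, 0 < l ∧ ∀ L, 0 < L → L ≤ l → ∀ R,
    Real.exp (-1) < R → R < 1 → Real.negMulLog R = Real.negMulLog L → ∀ n : ℕ, 8 ≤ n →
    ∃ R' : ℝ, R ≤ R' ∧ R' < 1 ∧ n * (R' - R) ≤ d ∧
      n * (Real.negMulLog L - Real.negMulLog R') ≤ d ∧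
      ∃ (I : Type) (_ : Fintype I) (lam : I → ℝ) (b : I → Fin n → ℝ), (∀ i, 0 < lam i) ∧
        ∑ i, lam i = L + (1 - R') ∧ (∀ i k, 0 < b i k ∧ b i k ≤ 1) ∧
        (∀ k, ∀ t : ℝ, 0 ≤ t → t ≤ 1 →
          ∑ i, (if b i k ≤ t then lam i else 0) ≤ min t L + max 0 (t - R')) ∧
        ∑ i, ∏ k, b i k ≤ d * (n * Real.exp (-(n : ℝ))) := by
  set e : ℝ := min d 1 with he
  have he0 : 0 < e := lt_min hd one_pos
  have c1 : Tendsto (fun L : ℝ => Real.negMulLog L) (𝓝[>] 0) (𝓝 0) := by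
    have := (Real.continuous_negMulLog.tendsto 0).mono_left (nhdsWithin_le_nhds (s := Set.Ioi 0))
    rwa [Real.negMulLog_zero] at this
  have c2 : Tendsto (fun L : ℝ => 176 * (4 * (Real.negMulLog (√L)) ^ 2)) (𝓝[>] 0) (𝓝 0) := by
    have h1 : Continuous (fun L : ℝ => 176 * (4 * (Real.negMulLog (√L)) ^ 2)) := by
      have := Real.continuous_negMulLog.comp Real.continuous_sqrt
      exact continuous_const.mul (continuous_const.mul (this.pow 2))
    have := (h1.tendsto 0).mono_left (nhdsWithin_le_nhds (s := Set.Ioi 0))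
    simpa [Real.negMulLog_zero] using this
  have c3 : Tendsto (fun L : ℝ => 2 * Real.exp 8 * L) (𝓝[>] 0) (𝓝 0) := by
    have h1 : Continuous (fun L : ℝ => 2 * Real.exp 8 * L) := by fun_prop
    have := (h1.tendsto 0).mono_left (nhdsWithin_le_nhds (s := Set.Ioi 0))
    simpa using this
  have c4 : Tendsto (fun L : ℝ => L) (𝓝[>] 0) (𝓝 0) :=
    (tendsto_id).mono_left (nhdsWithin_le_nhds (s := Set.Ioi 0))
  have hev : ∀ᶠ L : ℝ in 𝓝[>] 0, Real.negMulLog L ≤ 1 / 6 ∧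
      176 * (4 * (Real.negMulLog (√L)) ^ 2) ≤ e ∧ 2 * Real.exp 8 * L ≤ e ∧
      L ≤ Real.exp (-3) := by
    filter_upwards [c1.eventually (gt_mem_nhds (show (0 : ℝ) < 1 / 6 by norm_num)),
      c2.eventually (gt_mem_nhds he0), c3.eventually (gt_mem_nhds he0),
      c4.eventually (gt_mem_nhds (Real.exp_pos (-3)))] with L h1 h2 h3 h4
    exact ⟨h1.le, h2.le, h3.le, h4.le⟩
  rw [eventually_nhdsWithin_iff, Metric.eventually_nhds_iff] at hev
  obtain ⟨ρ, hρ, hev⟩ := hev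
  refine ⟨ρ / 2, by positivity, ?_⟩
  intro L hL hLl R hR0 hR1 hT n hn
  have hd' : dist L 0 < ρ := by
    rw [Real.dist_eq, sub_zero, abs_of_pos hL]
    linarith
  obtain ⟨h1, h2, h3, h4⟩ := hev hd' hL
  have hL3 : 3 ≤ -Real.log L := by
    have := Real.log_le_log hL h4
    rw [Real.log_exp] at this
    linarith
  have h5 : 4 * (Real.negMulLog (√L)) ^ 2 = L * Real.log L ^ 2 := by
    unfold Real.negMulLog
    rw [Real.log_sqrt hL.le]
    have := Real.sq_sqrt hL.le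
    calc 4 * (-√L * (Real.log L / 2)) ^ 2 = (√L ^ 2) * Real.log L ^ 2 := by ring
      _ = _ := by rw [this]
  rw [h5] at h2
  obtain ⟨R', a1, a2, a3, a4, I, hI, lam, b, a5, a6, a7, a8, a9⟩ :=
    system hL hL3 hR0 hR1 hT h1 (min_le_right d 1) h2 h3 hn
  have hed : e ≤ d := min_le_left d 1
  refine ⟨R', a1, a2, a3.trans hed, a4.trans hed, I, hI, lam, b, a5, a6, a7, a8, a9.trans ?_⟩
  exact mul_le_mul_of_nonneg_right hed (by positivity)

/-- row (U6) of the upper half -/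
theorem crudeRow : Pool.Agent.H54Sharp.Crude := by
  intro ε hε
  obtain ⟨l, hl, h⟩ := crude ε hε
  refine ⟨l, hl, ?_⟩
  intro L₀ R₀ hL hLl hR0 hR1 hT
  refine ⟨ε, hε, ?_⟩
  filter_upwards [eventually_ge_atTop 8] with n hn
  have hn' : (0 : ℝ) < n := by
    have : 0 < n := by omega
    exact_mod_cast this
  obtain ⟨R', a1, a2, a3, a4, I, hI, lam, b, a5, a6, a7, a8, a9⟩ := h L₀ hL hLl R₀ hR0 hR1 hT n hn
  refine ⟨R', I, hI, lam, b, a1, ?_, a2, a5, fun i k => (a7 i k).1, fun i k => (a7 i k).2, ?_,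
    ?_, ?_, a4⟩
  · have : R' - R₀ ≤ ε / n := by
      rw [le_div_iff₀ hn']
      linarith
    linarith
  · rw [a6]
    ring
  · intro k t ht0 ht1
    have e1 : ∀ i ∈ univ, lam i * (if b i k ≤ t then 1 else 0) =
        (if b i k ≤ t then lam i else 0) := by
      intro i _
      split_ifs <;> simp
    rw [sum_congr rfl e1]
    exact a8 k t ht0 ht1
  · refine a9.trans (le_of_eq ?_)
    ring

end Pool.Agent.Helper45.SH
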