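import Mathlib

set_option autoImplicit false

namespace Pool.Agent.Helper45.SH

open Finset

/-- antiderivative of the logarithm -/
noncomputable def G (x : ℝ) : ℝ := x * Real.log x - x

theorem G_zero : G 0 = 0 := by simp [G]

theorem G_one : G 1 = -1 := by simp [G]

theorem negMulLog_eq (x : ℝ) : Real.negMulLog x = -G x - x := by
  unfold Real.negMulLog G
  ring

theorem G_conv {x y : ℝ} (hx : 0 < x) (hy : 0 < y) : (y - x) * Real.log x ≤ G y - G x := by
  have h1 := Real.log_le_sub_one_of_pos (div_pos hx hy)
  rw [Real.log_div hx.ne' hy.ne'] at h1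
  have h2 := mul_le_mul_of_nonneg_left h1 hy.le
  have h3 : y * (x / y - 1) = x - y := by field_simp
  rw [h3] at h2
  unfold G
  nlinarith

/-- number of equally spaced points below a level -/
theorem count (m : ℕ) (hm : 0 < m) (c w t : ℝ) (hw : 0 < w) :
    (∑ l ∈ range m, if c + w * (((l : ℝ) + 1) / m) ≤ t then w / m else 0) ≤
      min t (c + w) - min t c := by
  classical
  have hm' : (0 : ℝ) < m := by exact_mod_cast hm
  rw [← sum_filter, sum_const, nsmul_eq_mul]
  rcases le_total t c with h | h
  · have h1 : (range m).filter (fun l : ℕ => c + w * (((l : ℝ) + 1) / m) ≤ t) = ∅ := by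
      apply filter_eq_empty_iff.mpr
      intro l _ hl
      have : 0 < w * (((l : ℝ) + 1) / m) := by positivity
      linarith
    rw [h1, min_eq_left h, min_eq_left (by linarith)]
    simp
  · rw [min_eq_right h]
    rcases le_total t (c + w) with h2 | h2
    · rw [min_eq_left h2]
      have hsub : (range m).filter (fun l : ℕ => c + w * (((l : ℝ) + 1) / m) ≤ t) ⊆
          range ⌊(m : ℝ) * ((t - c) / w)⌋₊ := by
        intro l hl
        rw [mem_filter, mem_range] at hl
        rw [mem_range]
        have h3 : w * (((l : ℝ) + 1) / m) ≤ t - c := by linarith [hl.2]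
        have h4 : l + 1 ≤ ⌊(m : ℝ) * ((t - c) / w)⌋₊ := by
          apply Nat.le_floor
          push_cast
          rw [mul_div_assoc', le_div_iff₀ hw]
          rw [mul_div_assoc', div_le_iff₀ hm'] at h3
          linarith
        omega
      have hcard := card_le_card hsub
      rw [card_range] at hcard
      have h5 : (#((range m).filter (fun l : ℕ => c + w * (((l : ℝ) + 1) / m) ≤ t)) : ℝ) ≤
          (m : ℝ) * ((t - c) / w) :=
        le_trans (by exact_mod_cast hcard) (Nat.floor_le (by
          have : 0 ≤ (t - c) / w := div_nonneg (by linarith) hw.le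
          positivity))
      calc _ ≤ (m : ℝ) * ((t - c) / w) * (w / m) :=
            mul_le_mul_of_nonneg_right h5 (by positivity)
        _ = t - c := by field_simp
    · rw [min_eq_right h2]
      have h5 : (#((range m).filter (fun l : ℕ => c + w * (((l : ℝ) + 1) / m) ≤ t)) : ℝ) ≤ m := by
        have := card_filter_le (range m) (fun l : ℕ => c + w * (((l : ℝ) + 1) / m) ≤ t)
        rw [card_range] at this
        exact_mod_cast this
      calc _ ≤ (m : ℝ) * (w / m) := mul_le_mul_of_nonneg_right h5 (by positivity)
        _ = c + w - c := by field_simp; ring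

/-- product of equally spaced points -/
theorem prod_le (m : ℕ) (hm : 0 < m) (c w : ℝ) (hc : 0 < c) (hw : 0 < w) :
    ∏ l ∈ range m, (c + w * (((l : ℝ) + 1) / m)) ≤
      (c + w) / c * Real.exp ((m / w) * (G (c + w) - G c)) := by
  have hm' : (0 : ℝ) < m := by exact_mod_cast hm
  set x : ℕ → ℝ := fun l => c + w * ((l : ℝ) / m) with hx
  have hxp : ∀ l, 0 < x l := fun l => by simp only [hx]; positivity
  have hx0 : x 0 = c := by simp [hx]
  have hxm : x m = c + w := by simp only [hx]; field_simp
  have h1 : ∏ l ∈ range m, (c + w * (((l : ℝ) + 1) / m)) =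
      Real.exp (∑ l ∈ range m, Real.log (x (l + 1))) := by
    rw [Real.exp_sum]
    apply prod_congr rfl
    intro l _
    rw [Real.exp_log (hxp _)]
    simp only [hx]
    push_cast
    rfl
  have h2 : ∑ l ∈ range m, Real.log (x (l + 1)) =
      ∑ l ∈ range m, Real.log (x l) + (Real.log (x m) - Real.log (x 0)) := by
    rw [← sum_range_sub (fun l => Real.log (x l)) m, ← sum_add_distrib]
    apply sum_congr rfl
    intro l _
    ring
  have h3 : ∑ l ∈ range m, Real.log (x l) ≤ (m / w) * (G (c + w) - G c) := by
    rw [← hxm, ← hx0, ← sum_range_sub (fun l => G (x l)) m, mul_sum]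
    apply sum_le_sum
    intro l _
    have h4 := G_conv (hxp l) (hxp (l + 1))
    have h5 : x (l + 1) - x l = w / m := by
      simp only [hx]
      push_cast
      field_simp
      ring
    rw [h5] at h4
    calc Real.log (x l) = (m / w) * (w / m * Real.log (x l)) := by field_simp
      _ ≤ _ := mul_le_mul_of_nonneg_left h4 (by positivity)
  rw [h1, h2, hx0, hxm, add_comm, Real.exp_add, Real.exp_sub, Real.exp_log (by positivity),
    Real.exp_log hc]
  exact mul_le_mul_of_nonneg_left (Real.exp_le_exp.mpr h3) (by positivity)

end Pool.Agent.Helper45.SH
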