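import Pool.Agent.Helper45.SH.Crude1

set_option autoImplicit false

namespace Pool.Agent.Helper45.SH

open Finset

/-- upper end of the class interval -/
noncomputable def hi (L : ℝ) (i : ℕ) : ℝ := L * (1 / 2) ^ i

/-- lower end of the class interval -/
noncomputable def lo (L : ℝ) (n i : ℕ) : ℝ := if i < n then L * (1 / 2) ^ (i + 1) else 0

/-- length of the class interval -/
noncomputable def sw (L : ℝ) (n i : ℕ) : ℝ := hi L i - lo L n i

/-- mean of `- log` on the class interval -/
noncomputable def mm (L : ℝ) (n i : ℕ) : ℝ := -(G (hi L i) - G (lo L n i)) / sw L n i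

/-- ideal ratio of a class -/
noncomputable def rr (L b : ℝ) (n i : ℕ) : ℝ := (mm L n i - b) / (1 - b)

/-- number of small coordinates of a class -/
noncomputable def nn (L b : ℝ) (n i : ℕ) : ℕ := ⌊(n : ℝ) / rr L b n i⌋₊ + 2

variable {L b : ℝ} {n : ℕ}

theorem hi_pos (hL : 0 < L) (i : ℕ) : 0 < hi L i := by unfold hi; positivity

theorem lo_nonneg (hL : 0 < L) (i : ℕ) : 0 ≤ lo L n i := by
  unfold lo
  split_ifs <;> positivity

theorem lo_lt_hi (hL : 0 < L) (i : ℕ) : lo L n i < hi L i := by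
  unfold lo hi
  have h1 : 0 < L * (1 / 2) ^ i := by positivity
  split_ifs
  · rw [pow_succ]
    linarith
  · exact h1

theorem sw_pos (hL : 0 < L) (i : ℕ) : 0 < sw L n i := sub_pos.mpr (lo_lt_hi hL i)

theorem sw_le (hL : 0 < L) (i : ℕ) : sw L n i ≤ hi L i := by
  unfold sw
  have := lo_nonneg (n := n) hL i
  linarith

theorem sw_mul_mm (hL : 0 < L) (i : ℕ) : sw L n i * mm L n i = -(G (hi L i) - G (lo L n i)) := by
  unfold mm
  have := (sw_pos (n := n) hL i).ne'
  field_simp

theorem log_hi (hL : 0 < L) (i : ℕ) : -Real.log (hi L i) = -Real.log L + i * Real.log 2 := by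
  unfold hi
  rw [Real.log_mul hL.ne' (by positivity), Real.log_pow, one_div, Real.log_inv]
  ring

theorem mm_ge (hL : 0 < L) (i : ℕ) : -Real.log (hi L i) ≤ mm L n i := by
  unfold mm
  rw [le_div_iff₀ (sw_pos hL i)]
  have h1 := hi_pos hL i
  rcases (lo_nonneg (n := n) hL i).eq_or_lt with h | h
  · unfold sw
    rw [← h, G_zero]
    unfold G
    linarith
  · have := G_conv h1 h
    unfold sw
    linarith

theorem mm_ge' (hL : 0 < L) (i : ℕ) : -Real.log L ≤ mm L n i := by
  have h1 := mm_ge (n := n) hL i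
  rw [log_hi hL] at h1
  have h2 : 0 ≤ (i : ℝ) * Real.log 2 := mul_nonneg (by positivity) (Real.log_nonneg (by norm_num))
  linarith

theorem mm_le (hL : 0 < L) (hL1 : 1 ≤ -Real.log L) (i : ℕ) :
    mm L n i ≤ -Real.log L * (i + 2) := by
  unfold mm
  rw [div_le_iff₀ (sw_pos hL i)]
  have h1 := hi_pos hL i
  have h2 : Real.log 2 ≤ 1 := by
    have := Real.log_two_lt_d9
    linarith
  have h0 : (0 : ℝ) ≤ i := by positivity
  by_cases hi' : i < n
  · have h3 : 0 < lo L n i := by
      unfold lo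
      rw [if_pos hi']
      positivity
    have h4 := G_conv h3 h1
    have h5 : -Real.log (lo L n i) = -Real.log L + (i + 1) * Real.log 2 := by
      have h6 := log_hi hL (i + 1)
      have h7 : lo L n i = hi L (i + 1) := by
        unfold lo hi
        rw [if_pos hi']
      rw [h7, h6]
      push_cast
      ring
    have h6 : -Real.log (lo L n i) ≤ -Real.log L * (i + 2) := by
      rw [h5]
      nlinarith
    calc -(G (hi L i) - G (lo L n i)) ≤ -Real.log (lo L n i) * sw L n i := by
          unfold sw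
          linarith
      _ ≤ _ := mul_le_mul_of_nonneg_right h6 (sw_pos hL i).le
  · have h3 : lo L n i = 0 := by
      unfold lo
      rw [if_neg hi']
    have h4 : sw L n i = hi L i := by
      unfold sw
      rw [h3, sub_zero]
    rw [h3, G_zero, h4]
    unfold G
    have h5 := log_hi hL i
    have h6 : -Real.log (hi L i) + 1 ≤ -Real.log L * (i + 2) := by
      rw [h5]
      nlinarith
    nlinarith

/-- telescoping over the classes -/
theorem tele (F : ℝ → ℝ) (L : ℝ) (n : ℕ) :
    ∑ i ∈ range (n + 1), (F (hi L i) - F (lo L n i)) = F L - F 0 := by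
  rw [sum_range_succ]
  have h1 : ∀ i ∈ range n, F (hi L i) - F (lo L n i) =
      (fun j => -F (hi L j)) (i + 1) - (fun j => -F (hi L j)) i := by
    intro i hi'
    have h2 : lo L n i = hi L (i + 1) := by
      unfold lo hi
      rw [if_pos (mem_range.mp hi')]
    rw [h2]
    ring
  rw [sum_congr rfl h1, sum_range_sub (fun j => -F (hi L j)) n]
  have h2 : lo L n n = 0 := by
    unfold lo
    rw [if_neg (lt_irrefl n)]
  have h3 : hi L 0 = L := by simp [hi]
  rw [h2, h3]
  ring

theorem sum_sw (L : ℝ) (n : ℕ) : ∑ i ∈ range (n + 1), sw L n i = L := by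
  have := tele (fun x => x) L n
  simpa [sw] using this

theorem sum_sw_mm (hL : 0 < L) :
    ∑ i ∈ range (n + 1), sw L n i * (mm L n i - 1) = Real.negMulLog L := by
  have h1 := tele (fun x => Real.negMulLog x) L n
  simp only [Real.negMulLog_zero, sub_zero] at h1
  rw [← h1]
  apply sum_congr rfl
  intro i _
  rw [mul_sub, sw_mul_mm hL, negMulLog_eq, negMulLog_eq, mul_one]
  unfold sw
  ring

section bounds

variable (hL : 0 < L) (hL3 : 3 ≤ -Real.log L) (hb0 : 0 ≤ b) (hb : b ≤ 1 / 2) (hn : 8 ≤ n)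
include hL hL3 hb0 hb

theorem rr_ge (i : ℕ) : mm L n i - b ≤ rr L b n i := by
  have h1 := mm_ge' (n := n) hL i
  unfold rr
  rw [le_div_iff₀ (by linarith)]
  nlinarith

theorem rr_two (i : ℕ) : 2 ≤ rr L b n i := by
  have h1 := mm_ge' (n := n) hL i
  have h2 := rr_ge (n := n) hL hL3 hb0 hb i
  linarith

theorem rr_le (i : ℕ) : rr L b n i ≤ 2 * mm L n i := by
  have h1 := mm_ge' (n := n) hL i
  unfold rr
  rw [div_le_iff₀ (by linarith)]
  nlinarith

theorem nn_gt (i : ℕ) : (n : ℝ) / rr L b n i + 1 ≤ nn L b n i := by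
  unfold nn
  push_cast
  have := Nat.lt_floor_add_one ((n : ℝ) / rr L b n i)
  linarith

theorem nn_le (i : ℕ) : (nn L b n i : ℝ) ≤ n / rr L b n i + 2 := by
  unfold nn
  push_cast
  have h1 := rr_two (n := n) hL hL3 hb0 hb i
  have := Nat.floor_le (show 0 ≤ (n : ℝ) / rr L b n i by positivity)
  linarith

omit hL hL3 hb0 hb in
theorem nn_pos (i : ℕ) : 0 < nn L b n i := Nat.succ_pos _

include hn in
theorem nn_lt (i : ℕ) : nn L b n i < n := by
  have h1 := nn_le (n := n) hL hL3 hb0 hb i
  have h2 := rr_two (n := n) hL hL3 hb0 hb i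
  have h3 : (n : ℝ) / rr L b n i ≤ n / 2 := div_le_div_of_nonneg_left (by positivity) (by norm_num) h2
  have h4 : (8 : ℝ) ≤ n := by exact_mod_cast hn
  have h5 : (nn L b n i : ℝ) < n := by linarith
  exact_mod_cast h5

/-- the ratio `n / n_i` is at most the ideal ratio -/
theorem ratio_le (i : ℕ) : (n : ℝ) / nn L b n i ≤ rr L b n i := by
  have h1 := nn_gt (n := n) hL hL3 hb0 hb i
  have h2 := rr_two (n := n) hL hL3 hb0 hb i
  have h3 : (0 : ℝ) < nn L b n i := by exact_mod_cast nn_pos i
  rw [div_le_iff₀ h3]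
  have h4 : (n : ℝ) / rr L b n i ≤ nn L b n i := by linarith
  rw [div_le_iff₀ (by linarith)] at h4
  linarith [mul_comm (rr L b n i) (nn L b n i : ℝ)]

/-- the defect of the ratio -/
theorem ratio_ge (hn0 : 0 < n) (i : ℕ) :
    (n : ℝ) * (rr L b n i - n / nn L b n i) ≤ 2 * rr L b n i ^ 2 := by
  have h1 := nn_gt (n := n) hL hL3 hb0 hb i
  have h1' := nn_le (n := n) hL hL3 hb0 hb i
  have h2 := rr_two (n := n) hL hL3 hb0 hb i
  have h3 : (0 : ℝ) < nn L b n i := by exact_mod_cast nn_pos i
  have hr : 0 < rr L b n i := by linarith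
  have hn' : (0 : ℝ) < n := by exact_mod_cast hn0
  set r := rr L b n i with hr'
  set ν : ℝ := (nn L b n i : ℝ) with hν
  have h4 : ν * r ≤ n + 2 * r := by
    have := mul_le_mul_of_nonneg_right h1' hr.le
    have e : (n / r + 2) * r = n + 2 * r := by field_simp
    linarith
  have h5 : n ≤ ν * r := by
    have h6 : (n : ℝ) / r ≤ ν := by linarith
    rwa [div_le_iff₀ hr] at h6
  have e : (n : ℝ) * (r - n / ν) = (n * (ν * r - n)) / ν := by field_simp
  rw [e, div_le_iff₀ h3]
  have h6 : (n : ℝ) * (ν * r - n) ≤ n * (2 * r) := mul_le_mul_of_nonneg_left (by linarith) hn'.le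
  have h7 : (n : ℝ) * (2 * r) ≤ (ν * r) * (2 * r) := mul_le_mul_of_nonneg_right h5 (by positivity)
  nlinarith

/-- the exponent of the class product -/
theorem nn_mm (i : ℕ) (hn0 : 0 < n) :
    n * (1 - b) + (mm L n i - b) ≤ nn L b n i * (mm L n i - b) := by
  have h1 := nn_gt (n := n) hL hL3 hb0 hb i
  have h2 := mm_ge' (n := n) hL i
  have h3 : 0 < mm L n i - b := by linarith
  have h4 : (n : ℝ) / rr L b n i * (mm L n i - b) = n * (1 - b) := by
    unfold rr
    have : 1 - b ≠ 0 := by linarith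
    field_simp
  have h5 := mul_le_mul_of_nonneg_right h1 h3.le
  rw [add_mul, h4, one_mul] at h5
  exact h5

end bounds

end Pool.Agent.Helper45.SH
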