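import Pool.Agent.Helper45.SH.Crude2

set_option autoImplicit false

namespace Pool.Agent.Helper45.SH

open Finset

variable {L b : ℝ} {n : ℕ}

section bounds

variable (hL : 0 < L) (hL3 : 3 ≤ -Real.log L) (hb0 : 0 ≤ b) (hb : b ≤ 1 / 2) (hn : 8 ≤ n)
include hL hL3 hb0 hb

/-- product of the small coordinates of a class -/
theorem bpart (i : ℕ) (hi' : i ≤ n) (hn0 : 0 < n) :
    ∏ l ∈ range (nn L b n i), (lo L n i + sw L n i * (((l : ℝ) + 1) / nn L b n i)) ≤
      Real.exp 3 * Real.exp (-(nn L b n i * mm L n i)) := by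
  have hs := sw_pos (n := n) hL i
  have hν := nn_pos (L := L) (b := b) (n := n) i
  have hν' : (0 : ℝ) < nn L b n i := by exact_mod_cast hν
  rcases hi'.lt_or_eq with h | h
  · have hlo : 0 < lo L n i := by
      unfold lo
      rw [if_pos h]
      positivity
    have h1 := prod_le (nn L b n i) hν (lo L n i) (sw L n i) hlo hs
    have h2 : lo L n i + sw L n i = hi L i := by unfold sw; ring
    rw [h2] at h1
    have h3 : hi L i / lo L n i = 2 := by
      unfold lo hi
      rw [if_pos h, pow_succ]
      field_simp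
    have h4 : (nn L b n i : ℝ) / sw L n i * (G (hi L i) - G (lo L n i)) =
        -(nn L b n i * mm L n i) := by
      have h5 := sw_mul_mm (n := n) hL i
      have h6 : G (hi L i) - G (lo L n i) = -(sw L n i * mm L n i) := by linarith
      rw [h6]
      field_simp
    rw [h3, h4] at h1
    refine h1.trans (mul_le_mul_of_nonneg_right ?_ (Real.exp_pos _).le)
    have := Real.add_one_le_exp (3 : ℝ)
    linarith
  · have hlo : lo L n i = 0 := by
      unfold lo
      rw [if_neg (by omega)]
    have hsw : sw L n i = hi L i := by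
      unfold sw
      rw [hlo, sub_zero]
    have hh := hi_pos hL i
    have hmm : mm L n i = -Real.log (hi L i) + 1 := by
      unfold mm
      rw [hlo, hsw, G_zero]
      unfold G
      field_simp
      ring
    have h1 : ∏ l ∈ range (nn L b n i), (lo L n i + sw L n i * (((l : ℝ) + 1) / nn L b n i)) ≤
        ∏ _l ∈ range (nn L b n i), hi L i := by
      apply prod_le_prod
      · intro l _
        rw [hlo, hsw]
        positivity
      · intro l hl
        rw [hlo, hsw, zero_add]
        have h2 : ((l : ℝ) + 1) / nn L b n i ≤ 1 := by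
          rw [div_le_one hν']
          have := mem_range.mp hl
          exact_mod_cast this
        nlinarith
    rw [prod_const, card_range] at h1
    refine h1.trans ?_
    have h2 : hi L i ^ nn L b n i = Real.exp (nn L b n i * Real.log (hi L i)) := by
      rw [← Real.log_pow, Real.exp_log (by positivity)]
    rw [h2, ← Real.exp_add, Real.exp_le_exp, hmm]
    have h3 : (nn L b n i : ℝ) ≤ 3 := by
      have h4 := rr_ge (n := n) hL hL3 hb0 hb i
      have h5 := log_hi hL i
      have h6 : (0.6 : ℝ) ≤ Real.log 2 := by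
        have := Real.log_two_gt_d9
        linarith
      have hn' : (0 : ℝ) < n := by exact_mod_cast hn0
      have h7 : (0.6 : ℝ) * n < rr L b n i := by
        have hin : (i : ℝ) = n := by exact_mod_cast h
        rw [hmm, h5, hin] at h4
        nlinarith
      have h8 : (n : ℝ) / rr L b n i < 2 := by
        rw [div_lt_iff₀ (by nlinarith)]
        nlinarith
      have h9 : ⌊(n : ℝ) / rr L b n i⌋₊ < 2 := by
        apply (Nat.floor_lt (by have := rr_two (n := n) hL hL3 hb0 hb i; positivity)).mpr
        exact_mod_cast h8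
      have h10 : nn L b n i ≤ 3 := by
        unfold nn
        omega
      exact_mod_cast h10
    nlinarith

end bounds

/-- mean of `- log` on `[R, 1]` -/
noncomputable def bet (R : ℝ) : ℝ := (1 + G R) / (1 - R)

theorem bet_nonneg {R : ℝ} (h0 : 0 < R) (h1 : R < 1) : 0 ≤ bet R := by
  unfold bet
  have h2 := G_conv one_pos h0
  rw [Real.log_one, G_one] at h2
  exact div_nonneg (by linarith) (by linarith)

theorem bet_le {R : ℝ} (h0 : 0 < R) (h1 : R < 1) : bet R ≤ -Real.log R := by
  unfold bet
  rw [div_le_iff₀ (by linarith)]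
  have h2 := G_conv h0 one_pos
  rw [G_one] at h2
  linarith

theorem one_sub_bet {R : ℝ} (h1 : R < 1) : (1 - bet R) * (1 - R) = Real.negMulLog R := by
  unfold bet
  rw [negMulLog_eq]
  have : 1 - R ≠ 0 := by linarith
  field_simp
  ring

theorem inv_le_exp {R : ℝ} (h0 : Real.exp (-1) < R) : 1 / R ≤ Real.exp 1 := by
  have h1 : 0 < R := (Real.exp_pos _).trans h0
  rw [div_le_iff₀ h1]
  have h2 : Real.exp 1 * Real.exp (-1) = 1 := by rw [← Real.exp_add]; simp
  have := mul_lt_mul_of_pos_left h0 (Real.exp_pos 1)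
  linarith

theorem bet_sub_le {R R' : ℝ} (h0 : Real.exp (-1) < R) (h1 : R ≤ R') (h2 : R' < 1) :
    bet R - bet R' ≤ Real.exp 1 * (R' - R) := by
  have hR : 0 < R := (Real.exp_pos _).trans h0
  have hR' : 0 < R' := hR.trans_le h1
  have hb' := bet_nonneg hR' h2
  have e1 : bet R * (1 - R) = 1 + G R := by
    unfold bet
    have : 1 - R ≠ 0 := by linarith
    field_simp
  have e2 : bet R' * (1 - R') = 1 + G R' := by
    unfold bet
    have : 1 - R' ≠ 0 := by linarith
    field_simp
  have h3 := G_conv hR hR'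
  have h4 : -Real.log R ≤ Real.exp 1 * (1 - R) := by
    have h5 := Real.log_le_sub_one_of_pos (div_pos one_pos hR)
    rw [Real.log_div one_ne_zero hR.ne', Real.log_one] at h5
    have h6 : 1 / R - 1 = 1 / R * (1 - R) := by field_simp
    have h7 := mul_le_mul_of_nonneg_right (inv_le_exp h0) (show 0 ≤ 1 - R by linarith)
    linarith
  have h5 : (bet R - bet R') * (1 - R) ≤ Real.exp 1 * (R' - R) * (1 - R) := by
    have h6 : (bet R - bet R') * (1 - R) ≤ (R' - R) * (-Real.log R) := by nlinarith
    have h7 : (R' - R) * (-Real.log R) ≤ (R' - R) * (Real.exp 1 * (1 - R)) :=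
      mul_le_mul_of_nonneg_left h4 (by linarith)
    linarith
  exact le_of_mul_le_mul_right h5 (by linarith)

/-- product of the large coordinates of a class -/
theorem apart {R' : ℝ} (h0 : Real.exp (-1) < R') (h2 : R' < 1) (m : ℕ) (hm : 0 < m) :
    ∏ l ∈ range m, (R' + (1 - R') * (((l : ℝ) + 1) / m)) ≤
      Real.exp 1 * Real.exp (-(m * bet R')) := by
  have hR' : 0 < R' := (Real.exp_pos _).trans h0
  have h1 := prod_le m hm R' (1 - R') hR' (by linarith)
  rw [add_sub_cancel, G_one] at h1
  have e : (m : ℝ) / (1 - R') * (-1 - G R') = -(m * bet R') := by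
    unfold bet
    have : 1 - R' ≠ 0 := by linarith
    field_simp
    ring
  rw [e] at h1
  exact h1.trans (mul_le_mul_of_nonneg_right (inv_le_exp h0) (Real.exp_pos _).le)

/-- the positions of a class -/
noncomputable def top (L b R' : ℝ) (n i l : ℕ) : ℝ :=
  if l < nn L b n i then lo L n i + sw L n i * (((l : ℝ) + 1) / nn L b n i)
  else R' + (1 - R') * ((((l - nn L b n i : ℕ) : ℝ) + 1) / ((n - nn L b n i : ℕ) : ℝ))

theorem sum_top {F : ℝ → ℝ} {R' : ℝ} {i : ℕ} (h : nn L b n i ≤ n) :
    ∑ l ∈ range n, F (top L b R' n i l) =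
      ∑ l ∈ range (nn L b n i), F (lo L n i + sw L n i * (((l : ℝ) + 1) / nn L b n i)) +
      ∑ l ∈ range (n - nn L b n i),
        F (R' + (1 - R') * (((l : ℝ) + 1) / ((n - nn L b n i : ℕ) : ℝ))) := by
  have h1 : ∑ l ∈ range n, F (top L b R' n i l) =
      ∑ l ∈ range (nn L b n i + (n - nn L b n i)), F (top L b R' n i l) := by
    rw [Nat.add_sub_cancel' h]
  rw [h1, sum_range_add]
  congr 1
  · apply sum_congr rfl
    intro l hl
    unfold top
    rw [if_pos (mem_range.mp hl)]
  · apply sum_congr rfl
    intro l _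
    unfold top
    rw [if_neg (by omega), Nat.add_sub_cancel_left]

theorem prod_top {R' : ℝ} {i : ℕ} (h : nn L b n i ≤ n) :
    ∏ l ∈ range n, top L b R' n i l =
      (∏ l ∈ range (nn L b n i), (lo L n i + sw L n i * (((l : ℝ) + 1) / nn L b n i))) *
      ∏ l ∈ range (n - nn L b n i),
        (R' + (1 - R') * (((l : ℝ) + 1) / ((n - nn L b n i : ℕ) : ℝ))) := by
  have h1 : ∏ l ∈ range n, top L b R' n i l =
      ∏ l ∈ range (nn L b n i + (n - nn L b n i)), top L b R' n i l := by
    rw [Nat.add_sub_cancel' h]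
  rw [h1, prod_range_add]
  congr 1
  · apply prod_congr rfl
    intro l hl
    unfold top
    rw [if_pos (mem_range.mp hl)]
  · apply prod_congr rfl
    intro l _
    unfold top
    rw [if_neg (by omega), Nat.add_sub_cancel_left]

theorem top_pos {R' : ℝ} (hL : 0 < L) (h0 : 0 < R') (h1 : R' < 1) {i l : ℕ} :
    0 < top L b R' n i l := by
  unfold top
  have h2 := lo_nonneg (n := n) hL i
  have h3 := sw_pos (n := n) hL i
  have h4 : (0 : ℝ) < nn L b n i := by exact_mod_cast nn_pos i
  split_ifs
  · positivity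
  · have h5 : 0 ≤ (1 - R') * ((((l - nn L b n i : ℕ) : ℝ) + 1) / ((n - nn L b n i : ℕ) : ℝ)) :=
      mul_nonneg (by linarith) (by positivity)
    linarith

theorem top_le {R' : ℝ} (hL : 0 < L) (hL1 : L ≤ 1) (h0 : 0 < R') (h1 : R' < 1) {i l : ℕ}
    (hl : l < n) (h : nn L b n i < n) : top L b R' n i l ≤ 1 := by
  unfold top
  have h2 := lo_nonneg (n := n) hL i
  have h3 := sw_pos (n := n) hL i
  have h4 : (0 : ℝ) < nn L b n i := by exact_mod_cast nn_pos i
  split_ifs with hl'
  · have h5 : ((l : ℝ) + 1) / nn L b n i ≤ 1 := by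
      rw [div_le_one h4]
      exact_mod_cast hl'
    have h6 : lo L n i + sw L n i = hi L i := by unfold sw; ring
    have h7 : hi L i ≤ 1 := by
      unfold hi
      have : ((1 : ℝ) / 2) ^ i ≤ 1 := pow_le_one₀ (by norm_num) (by norm_num)
      nlinarith
    nlinarith
  · have h5 : (((l - nn L b n i : ℕ) : ℝ) + 1) / ((n - nn L b n i : ℕ) : ℝ) ≤ 1 := by
      have h6 : (0 : ℝ) < ((n - nn L b n i : ℕ) : ℝ) := by
        have : 0 < n - nn L b n i := by omega
        exact_mod_cast this
      rw [div_le_one h6]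
      have h7 : l - nn L b n i + 1 ≤ n - nn L b n i := by omega
      exact_mod_cast h7
    nlinarith

end Pool.Agent.Helper45.SH
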