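import Pool.Agent.Helper45.SH.Crude3

set_option autoImplicit false

namespace Pool.Agent.Helper45.SH

open Finset

variable {L b : ℝ} {n : ℕ}

theorem sum_sq_half (N : ℕ) :
    ∑ i ∈ range N, (1 / 2 : ℝ) ^ i * ((i : ℝ) + 2) ^ 2 =
      22 - (2 * (N : ℝ) ^ 2 + 12 * N + 22) * (1 / 2) ^ N := by
  induction N with
  | zero => simp
  | succ N ih =>
    rw [sum_range_succ, ih, pow_succ]
    push_cast
    ring

theorem sum_half' (N : ℕ) : ∑ i ∈ range N, (1 / 2 : ℝ) ^ i = 2 - 2 * (1 / 2) ^ N := by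
  induction N with
  | zero => simp
  | succ N ih =>
    rw [sum_range_succ, ih, pow_succ]
    ring

/-- `1 - R'` -/
noncomputable def rho (L b : ℝ) (n : ℕ) : ℝ :=
  ∑ i ∈ range (n + 1), sw L n i * ((n : ℝ) / nn L b n i - 1)

section bounds

variable (hL : 0 < L) (hL3 : 3 ≤ -Real.log L) (hb0 : 0 ≤ b) (hb : b ≤ 1 / 2) (hn : 8 ≤ n)
include hL hL3 hb0 hb hn

theorem rho_term_pos (i : ℕ) : 0 < sw L n i * ((n : ℝ) / nn L b n i - 1) := by
  have h1 := nn_lt hL hL3 hb0 hb hn i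
  have h2 : (0 : ℝ) < nn L b n i := by exact_mod_cast nn_pos i
  have h3 : 1 < (n : ℝ) / nn L b n i := by
    rw [lt_div_iff₀ h2, one_mul]
    exact_mod_cast h1
  exact mul_pos (sw_pos hL i) (by linarith)

theorem rho_pos : 0 < rho L b n :=
  sum_pos (fun i _ => rho_term_pos hL hL3 hb0 hb hn i) ⟨0, mem_range.mpr (by omega)⟩

omit hb0 hn in
theorem sum_rr : ∑ i ∈ range (n + 1), sw L n i * (rr L b n i - 1) =
    Real.negMulLog L / (1 - b) := by
  rw [← sum_sw_mm (n := n) hL, sum_div]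
  apply sum_congr rfl
  intro i _
  unfold rr
  have : 1 - b ≠ 0 := by linarith
  field_simp
  ring

theorem rho_le : rho L b n ≤ Real.negMulLog L / (1 - b) := by
  rw [← sum_rr (n := n) hL hL3 hb]
  unfold rho
  apply sum_le_sum
  intro i _
  have := ratio_le (n := n) hL hL3 hb0 hb i
  exact mul_le_mul_of_nonneg_left (by linarith) (sw_pos hL i).le

theorem rho_ge : n * (Real.negMulLog L / (1 - b) - rho L b n) ≤
    176 * (L * Real.log L ^ 2) := by
  have hn0 : 0 < n := by omega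
  rw [← sum_rr (n := n) hL hL3 hb]
  unfold rho
  rw [← sum_sub_distrib, mul_sum]
  have h1 : ∀ i ∈ range (n + 1), (n : ℝ) * (sw L n i * (rr L b n i - 1) -
      sw L n i * ((n : ℝ) / nn L b n i - 1)) ≤
      8 * (L * Real.log L ^ 2) * ((1 / 2 : ℝ) ^ i * ((i : ℝ) + 2) ^ 2) := by
    intro i _
    have h2 := ratio_ge (n := n) hL hL3 hb0 hb hn0 i
    have h3 := rr_le (n := n) hL hL3 hb0 hb i
    have h4 := mm_le (n := n) hL (by linarith) i
    have h5 := rr_two (n := n) hL hL3 hb0 hb i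
    have h6 := sw_le (n := n) hL i
    have h7 := (sw_pos (n := n) hL i).le
    have h8 : rr L b n i ≤ 2 * (-Real.log L * ((i : ℝ) + 2)) := by linarith
    have h9 : rr L b n i ^ 2 ≤ (2 * (-Real.log L * ((i : ℝ) + 2))) ^ 2 :=
      pow_le_pow_left₀ (by linarith) h8 2
    calc (n : ℝ) * (sw L n i * (rr L b n i - 1) - sw L n i * ((n : ℝ) / nn L b n i - 1))
        = sw L n i * ((n : ℝ) * (rr L b n i - n / nn L b n i)) := by ring
      _ ≤ sw L n i * (2 * rr L b n i ^ 2) := mul_le_mul_of_nonneg_left h2 h7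
      _ ≤ sw L n i * (2 * (2 * (-Real.log L * ((i : ℝ) + 2))) ^ 2) :=
          mul_le_mul_of_nonneg_left (by linarith) h7
      _ ≤ hi L i * (2 * (2 * (-Real.log L * ((i : ℝ) + 2))) ^ 2) :=
          mul_le_mul_of_nonneg_right h6 (by positivity)
      _ = _ := by unfold hi; ring
  refine (sum_le_sum h1).trans ?_
  rw [← mul_sum, sum_sq_half]
  have h2 : 0 ≤ L * Real.log L ^ 2 := by positivity
  have h3 : 0 ≤ (2 * ((n + 1 : ℕ) : ℝ) ^ 2 + 12 * ((n + 1 : ℕ) : ℝ) + 22) * (1 / 2) ^ (n + 1) := by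
    positivity
  nlinarith

/-- product of the coordinates of a class -/
theorem class_prod {R : ℝ} (hR0 : Real.exp (-1) < R) (hbR : b = bet R) {R' : ℝ} (h1 : R ≤ R')
    (h2 : R' < 1) (h3 : n * (R' - R) ≤ 1) {i : ℕ} (hi' : i ≤ n) :
    ∏ l ∈ range n, top L b R' n i l ≤ Real.exp 8 * Real.exp (-(n : ℝ)) * hi L i := by
  have hlt := nn_lt hL hL3 hb0 hb hn i
  have hn0 : 0 < n := by omega
  have hn' : (0 : ℝ) < n := by exact_mod_cast hn0
  rw [prod_top hlt.le]
  have hR'0 : Real.exp (-1) < R' := hR0.trans_le h1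
  have e1 := bpart (n := n) hL hL3 hb0 hb i hi' hn0
  have e2 := apart hR'0 h2 (n - nn L b n i) (by omega)
  have hR' : 0 < R' := (Real.exp_pos _).trans hR'0
  have e0 : 0 ≤ ∏ l ∈ range (n - nn L b n i),
      (R' + (1 - R') * (((l : ℝ) + 1) / ((n - nn L b n i : ℕ) : ℝ))) := by
    apply prod_nonneg
    intro l _
    have : 0 ≤ (1 - R') * (((l : ℝ) + 1) / ((n - nn L b n i : ℕ) : ℝ)) :=
      mul_nonneg (by linarith) (by positivity)
    linarith
  refine (mul_le_mul e1 e2 e0 (by positivity)).trans ?_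
  have hc : ((n - nn L b n i : ℕ) : ℝ) = n - nn L b n i := by
    rw [Nat.cast_sub hlt.le]
  rw [hc]
  have e3 := bet_sub_le hR0 h1 h2
  rw [← hbR] at e3
  have e4 := nn_mm (n := n) hL hL3 hb0 hb i hn0
  have e5 := mm_ge (n := n) hL i
  have e6 : 0 ≤ (n : ℝ) - nn L b n i := by
    rw [← hc]
    positivity
  have e7 : ((n : ℝ) - nn L b n i) * (b - bet R') ≤ Real.exp 1 := by
    have f1 : ((n : ℝ) - nn L b n i) * (b - bet R') ≤
        ((n : ℝ) - nn L b n i) * (Real.exp 1 * (R' - R)) := mul_le_mul_of_nonneg_left e3 e6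
    have f2 : ((n : ℝ) - nn L b n i) * (Real.exp 1 * (R' - R)) ≤
        n * (Real.exp 1 * (R' - R)) := by
      apply mul_le_mul_of_nonneg_right
      · have : (0 : ℝ) ≤ nn L b n i := by positivity
        linarith
      · exact mul_nonneg (Real.exp_pos _).le (by linarith)
    have f3 : (n : ℝ) * (Real.exp 1 * (R' - R)) ≤ Real.exp 1 := by
      have := mul_le_mul_of_nonneg_left h3 (Real.exp_pos 1).le
      linarith
    linarith
  have e8 : Real.exp 1 < 3 := by
    have := Real.exp_one_lt_d9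
    linarith
  have e9 : hi L i = Real.exp (Real.log (hi L i)) := (Real.exp_log (hi_pos hL i)).symm
  rw [e9, ← Real.exp_add, ← Real.exp_add, ← Real.exp_add, ← Real.exp_add, ← Real.exp_add,
    Real.exp_le_exp]
  nlinarith

end bounds

end Pool.Agent.Helper45.SH
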