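import Pool.Agent.Helper45.SH.Crude4

set_option autoImplicit false

namespace Pool.Agent.Helper45.SH

open Finset

theorem system {L R d : ℝ} {n : ℕ} (hL : 0 < L) (hL3 : 3 ≤ -Real.log L)
    (hR0 : Real.exp (-1) < R) (hR1 : R < 1) (hT : Real.negMulLog R = Real.negMulLog L)
    (hTs : Real.negMulLog L ≤ 1 / 6) (hd1 : d ≤ 1) (hd : 176 * (L * Real.log L ^ 2) ≤ d)
    (hK : 2 * Real.exp 8 * L ≤ d) (hn : 8 ≤ n) :
    ∃ R' : ℝ, R ≤ R' ∧ R' < 1 ∧ n * (R' - R) ≤ d ∧
      n * (Real.negMulLog L - Real.negMulLog R') ≤ d ∧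
      ∃ (I : Type) (_ : Fintype I) (lam : I → ℝ) (b : I → Fin n → ℝ), (∀ i, 0 < lam i) ∧
        ∑ i, lam i = L + (1 - R') ∧ (∀ i k, 0 < b i k ∧ b i k ≤ 1) ∧
        (∀ k, ∀ t : ℝ, 0 ≤ t → t ≤ 1 →
          ∑ i, (if b i k ≤ t then lam i else 0) ≤ min t L + max 0 (t - R')) ∧
        ∑ i, ∏ k, b i k ≤ d * (n * Real.exp (-(n : ℝ))) := by
  classical
  have hn0 : 0 < n := by omega
  have hn' : (0 : ℝ) < n := by exact_mod_cast hn0
  haveI : NeZero n := ⟨by omega⟩
  have hRp : 0 < R := (Real.exp_pos _).trans hR0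
  set b : ℝ := bet R with hbR
  have hb0 : 0 ≤ b := bet_nonneg hRp hR1
  have hb : b ≤ 1 / 2 := by
    have h1 := bet_le hRp hR1
    have h2 : -Real.log R = 1 / R * Real.negMulLog R := by
      unfold Real.negMulLog
      field_simp
    rw [hT] at h2
    have h3 : 0 ≤ Real.negMulLog L := by
      unfold Real.negMulLog
      nlinarith
    have h4 : 1 / R * Real.negMulLog L ≤ Real.exp 1 * (1 / 6) :=
      mul_le_mul (inv_le_exp hR0) hTs h3 (Real.exp_pos 1).le
    have h5 : Real.exp 1 < 3 := by
      have := Real.exp_one_lt_d9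
      linarith
    linarith
  have hL1 : L ≤ 1 := by
    by_contra h
    push Not at h
    have := Real.log_pos h
    linarith
  set R' : ℝ := 1 - rho L b n with hR'
  have hρ := rho_pos hL hL3 hb0 hb hn
  have hTR : Real.negMulLog L / (1 - b) = 1 - R := by
    rw [← hT, ← one_sub_bet hR1, ← hbR]
    have : 1 - b ≠ 0 := by linarith
    field_simp
  have h1 : R ≤ R' := by
    have := rho_le hL hL3 hb0 hb hn
    rw [hTR] at this
    rw [hR']
    linarith
  have h2 : R' < 1 := by rw [hR']; linarith
  have hR'p : 0 < R' := hRp.trans_le h1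
  have h3 : n * (R' - R) ≤ d := by
    have := rho_ge hL hL3 hb0 hb hn
    rw [hTR] at this
    rw [hR']
    have e : (n : ℝ) * (1 - rho L b n - R) = n * (1 - R - rho L b n) := by ring
    rw [e]
    linarith
  refine ⟨R', h1, h2, h3, ?_, Fin (n + 1) × Fin n, inferInstance,
    fun p => sw L n p.1 / nn L b n p.1, fun p k => top L b R' n p.1 ((k + p.2 : Fin n) : ℕ),
    ?_, ?_, ?_, ?_, ?_⟩
  · have h4 : Real.negMulLog L - Real.negMulLog R' ≤ R' - R := by
      rw [← hT, negMulLog_eq, negMulLog_eq]
      have h5 := G_conv hR'p hRp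
      have h6 := Real.log_nonpos hR'p.le h2.le
      nlinarith
    exact (mul_le_mul_of_nonneg_left h4 hn'.le).trans h3
  · intro p
    have : (0 : ℝ) < nn L b n p.1 := by exact_mod_cast nn_pos p.1
    exact div_pos (sw_pos hL _) this
  · rw [Fintype.sum_prod_type]
    simp only [sum_const, card_univ, Fintype.card_fin, nsmul_eq_mul]
    rw [Fin.sum_univ_eq_sum_range (fun i => (n : ℝ) * (sw L n i / nn L b n i)) (n + 1)]
    have h4 : ∀ i ∈ range (n + 1), (n : ℝ) * (sw L n i / nn L b n i) =
        sw L n i * ((n : ℝ) / nn L b n i - 1) + sw L n i := by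
      intro i _
      ring
    rw [sum_congr rfl h4, sum_add_distrib, sum_sw, hR']
    unfold rho
    ring
  · intro p k
    exact ⟨top_pos hL hR'p h2, top_le hL hL1 hR'p h2 (k + p.2).2 (nn_lt hL hL3 hb0 hb hn _)⟩
  · intro k t ht0 ht1
    rw [Fintype.sum_prod_type]
    have h4 : ∀ i : Fin (n + 1), ∑ j : Fin n,
        (if top L b R' n i ((k + j : Fin n) : ℕ) ≤ t then sw L n i / nn L b n i else 0) =
        ∑ l ∈ range n, (if top L b R' n i l ≤ t then sw L n i / nn L b n i else 0) := by
      intro i
      rw [← Fin.sum_univ_eq_sum_range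
        (fun l => if top L b R' n i l ≤ t then sw L n i / nn L b n i else 0) n]
      exact Equiv.sum_comp (Equiv.addLeft k)
        (fun l : Fin n => if top L b R' n i (l : ℕ) ≤ t then sw L n i / nn L b n i else 0)
    simp only [h4]
    rw [Fin.sum_univ_eq_sum_range (fun i => ∑ l ∈ range n,
      (if top L b R' n i l ≤ t then sw L n i / nn L b n i else 0)) (n + 1)]
    set X : ℝ := max 0 (t - R') with hX
    have hX1 : min t 1 - min t R' = X := by
      rw [min_eq_left ht1, hX]
      rcases le_total t R' with h | h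
      · rw [min_eq_left h, max_eq_left (by linarith)]
        ring
      · rw [min_eq_right h, max_eq_right (by linarith)]
    have hρ' : rho L b n = 1 - R' := by rw [hR']; ring
    have h5 : ∀ i ∈ range (n + 1), ∑ l ∈ range n,
        (if top L b R' n i l ≤ t then sw L n i / nn L b n i else 0) ≤
        (min t (hi L i) - min t (lo L n i)) +
          sw L n i * ((n : ℝ) / nn L b n i - 1) * (X / (1 - R')) := by
      intro i _
      have hlt := nn_lt hL hL3 hb0 hb hn i
      have hν := nn_pos (L := L) (b := b) (n := n) i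
      have hν' : (0 : ℝ) < nn L b n i := by exact_mod_cast hν
      rw [sum_top (F := fun x => if x ≤ t then sw L n i / nn L b n i else 0) hlt.le]
      apply add_le_add
      · have h6 := count (nn L b n i) hν (lo L n i) (sw L n i) t (sw_pos hL i)
        have h7 : lo L n i + sw L n i = hi L i := by unfold sw; ring
        rw [h7] at h6
        exact h6
      · have hm : 0 < n - nn L b n i := by omega
        have hm' : (0 : ℝ) < ((n - nn L b n i : ℕ) : ℝ) := by exact_mod_cast hm
        have h6 := count (n - nn L b n i) hm R' (1 - R') t (by linarith)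
        rw [add_sub_cancel, hX1] at h6
        have hc : ((n - nn L b n i : ℕ) : ℝ) = n - nn L b n i := by
          rw [Nat.cast_sub hlt.le]
        set m' : ℝ := ((n - nn L b n i : ℕ) : ℝ) with hm'd
        have h7 : ∑ l ∈ range (n - nn L b n i),
            (if R' + (1 - R') * (((l : ℝ) + 1) / m') ≤ t then sw L n i / nn L b n i else 0) =
            (sw L n i * (m' / nn L b n i) / (1 - R')) * ∑ l ∈ range (n - nn L b n i),
            (if R' + (1 - R') * (((l : ℝ) + 1) / m') ≤ t then (1 - R') / m' else 0) := by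
          rw [mul_sum]
          apply sum_congr rfl
          intro l _
          split_ifs
          · have : 1 - R' ≠ 0 := by linarith
            field_simp
          · simp
        rw [h7]
        have h8 : 0 ≤ sw L n i * (m' / nn L b n i) / (1 - R') := by
          have := (sw_pos (n := n) hL i).le
          have : 0 < 1 - R' := by linarith
          positivity
        refine (mul_le_mul_of_nonneg_left h6 h8).trans (le_of_eq ?_)
        rw [hc]
        have : 1 - R' ≠ 0 := by linarith
        field_simp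
    refine (sum_le_sum h5).trans (le_of_eq ?_)
    rw [sum_add_distrib, ← sum_mul, tele (fun x => min t x) L n, min_eq_right ht0, sub_zero]
    have h6 : ∑ i ∈ range (n + 1), sw L n i * ((n : ℝ) / nn L b n i - 1) = 1 - R' := hρ'
    rw [h6]
    have : 1 - R' ≠ 0 := by linarith
    field_simp
  · rw [Fintype.sum_prod_type]
    have h4 : ∀ i : Fin (n + 1), ∑ j : Fin n, ∏ k : Fin n,
        top L b R' n i ((k + j : Fin n) : ℕ) = n * ∏ l ∈ range n, top L b R' n i l := by
      intro i
      have h5 : ∀ j : Fin n, ∏ k : Fin n, top L b R' n i ((k + j : Fin n) : ℕ) =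
          ∏ l ∈ range n, top L b R' n i l := by
        intro j
        rw [← Fin.prod_univ_eq_prod_range (fun l => top L b R' n i l) n]
        exact Equiv.prod_comp (Equiv.addRight j) (fun l : Fin n => top L b R' n i (l : ℕ))
      simp only [h5, sum_const, card_univ, Fintype.card_fin, nsmul_eq_mul]
    simp only [h4]
    rw [Fin.sum_univ_eq_sum_range (fun i => (n : ℝ) * ∏ l ∈ range n, top L b R' n i l) (n + 1)]
    have h5 : ∀ i ∈ range (n + 1), (n : ℝ) * ∏ l ∈ range n, top L b R' n i l ≤
        n * Real.exp (-(n : ℝ)) * Real.exp 8 * L * (1 / 2) ^ i := by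
      intro i hi'
      have h6 := class_prod hL hL3 hb0 hb hn hR0 hbR h1 h2 (h3.trans hd1)
        (show i ≤ n by have := mem_range.mp hi'; omega)
      calc (n : ℝ) * ∏ l ∈ range n, top L b R' n i l ≤
          n * (Real.exp 8 * Real.exp (-(n : ℝ)) * hi L i) := mul_le_mul_of_nonneg_left h6 hn'.le
        _ = _ := by unfold hi; ring
    refine (sum_le_sum h5).trans ?_
    rw [← mul_sum, sum_half']
    have h6 : (0 : ℝ) ≤ (1 / 2) ^ (n + 1) := by positivity
    have h7 : 0 ≤ (n : ℝ) * Real.exp (-(n : ℝ)) := by positivity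
    have h8 : 0 ≤ (n : ℝ) * Real.exp (-(n : ℝ)) * Real.exp 8 * L := by positivity
    calc (n : ℝ) * Real.exp (-(n : ℝ)) * Real.exp 8 * L * (2 - 2 * (1 / 2) ^ (n + 1)) ≤
        (n : ℝ) * Real.exp (-(n : ℝ)) * Real.exp 8 * L * 2 :=
          mul_le_mul_of_nonneg_left (by linarith) h8
      _ = (2 * Real.exp 8 * L) * (n * Real.exp (-(n : ℝ))) := by ring
      _ ≤ _ := mul_le_mul_of_nonneg_right hK h7

end Pool.Agent.Helper45.SH
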